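import Pool.Agent.Helper83.EIN2.Goals

/-!
# Project EIN2 (MP_06d934_gt): the a priori bounds
-/

set_option autoImplicit false

namespace Pool.Agent.Helper9.EIN2

open Pool.Agent.Helper83.EIN Pool.Agent.Helper83.EIN2

theorem toSol {a β t : ℝ} {v : Fin 6 → ℝ} (hT : t + (1 - t) * β ≠ 0) (h : Sol2 a β t v) :
    Sol (t * a / (t + (1 - t) * β)) (t * (1 - a) / (t + (1 - t) * β))
      ((1 - t) * β / (t + (1 - t) * β)) (t + (1 - t) * β) ![v 0, v 2, v 4, v 3, v 5, v 1] := by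
  have e1 : (t + (1 - t) * β) * (t * a / (t + (1 - t) * β)) = t * a := by field_simp
  have e2 : (t + (1 - t) * β) * (t * (1 - a) / (t + (1 - t) * β)) = t * (1 - a) := by field_simp
  have e3 : (t + (1 - t) * β) * ((1 - t) * β / (t + (1 - t) * β)) = (1 - t) * β := by field_simp
  have e4 : 1 - (t + (1 - t) * β) = (1 - t) * (1 - β) := by ring
  refine ⟨?_, ?_, ?_, ?_, ?_, ?_, ?_⟩
  · intro i
    fin_cases i
    exacts [h.pos 0, h.pos 2, h.pos 4, h.pos 3, h.pos 5, h.pos 1]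
  · rw [e3, e4]
    exact h.e0
  · rw [e2, e4]
    have := h.e2
    rw [Pool.Agent.Helper83.EIN2.cs_comm (v 1) (v 3)] at this
    exact this
  · rw [e1, e4]
    have := h.e4
    rw [Pool.Agent.Helper83.EIN2.cs_comm (v 1) (v 5)] at this
    exact this
  · rw [e2, e3]
    have := h.e3
    rw [Pool.Agent.Helper83.EIN2.cs_comm (v 1) (v 2)] at this
    exact this
  · rw [e1, e3]
    have := h.e5
    rw [Pool.Agent.Helper83.EIN2.cs_comm (v 1) (v 4)] at this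
    exact this
  · rw [e1, e2]
    exact h.e1

theorem lo {x P Q c d : ℝ} (hP : 0 ≤ P) (hQ : 0 ≤ Q) (hc : c ≤ 1) (hd : d ≤ 1)
    (h : x = 1 - P * c - Q * d) : 1 - P - Q ≤ x := by
  nlinarith [mul_nonneg hP (sub_nonneg.2 hc), mul_nonneg hQ (sub_nonneg.2 hd)]

theorem up {x P Q c d : ℝ} (hP : 0 ≤ P) (hQ : 0 ≤ Q) (hc : -1 ≤ c) (hd : -1 ≤ d)
    (h : x = 1 - P * c - Q * d) : x ≤ 1 + P + Q := by
  nlinarith [mul_nonneg hP (by linarith : 0 ≤ 1 + c), mul_nonneg hQ (by linarith : 0 ≤ 1 + d)]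

theorem bd : Pool.Agent.Helper83.EIN2.BD := by
  intro a β t v ha ha1 hβ hβ1 ht ht1 h
  have p := h.pos
  have h1a : 0 < 1 - a := by linarith
  have h1b : 0 < 1 - β := by linarith
  have h1t : 0 < 1 - t := by linarith
  have q1 : 0 < t * a := mul_pos ht ha
  have q2 : 0 < t * (1 - a) := mul_pos ht h1a
  have q3 : 0 < (1 - t) * β := mul_pos h1t hβ
  have q4 : 0 < (1 - t) * (1 - β) := mul_pos h1t h1b
  have hT : 0 < t + (1 - t) * β := by linarith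
  have hT1 : t + (1 - t) * β < 1 := by nlinarith
  obtain ⟨t1, t2, t3, t4⟩ := ti _ _ _ _ _ (div_pos q1 hT) (div_pos q2 hT) (div_pos q3 hT)
    (by field_simp; ring) hT hT1 (toSol hT.ne' h)
  have t1 : Tri (v 0) (v 2) (v 4) := t1
  have t2 : Tri (v 0) (v 3) (v 5) := t2
  have t3 : Tri (v 2) (v 3) (v 1) := t3
  have t4 : Tri (v 4) (v 5) (v 1) := t4
  have a0 := cs_le (p 2) (p 4) (p 0) t1.rot
  have a0' := le_cs (p 2) (p 4) (p 0) t1.rot
  have b0 := cs_le (p 3) (p 5) (p 0) t2.rot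
  have b0' := le_cs (p 3) (p 5) (p 0) t2.rot
  have a1 := cs_le (p 2) (p 3) (p 1) t3
  have a1' := le_cs (p 2) (p 3) (p 1) t3
  have b1 := cs_le (p 4) (p 5) (p 1) t4
  have b1' := le_cs (p 4) (p 5) (p 1) t4
  have a2 := cs_le (p 0) (p 4) (p 2) t1.rot.rot.swap
  have a2' := le_cs (p 0) (p 4) (p 2) t1.rot.rot.swap
  have b2 := cs_le (p 1) (p 3) (p 2) t3.rot.swap
  have b2' := le_cs (p 1) (p 3) (p 2) t3.rot.swap
  have a3 := cs_le (p 0) (p 5) (p 3) t2.rot.rot.swap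
  have a3' := le_cs (p 0) (p 5) (p 3) t2.rot.rot.swap
  have b3 := cs_le (p 1) (p 2) (p 3) t3.rot.rot
  have b3' := le_cs (p 1) (p 2) (p 3) t3.rot.rot
  have a4 := cs_le (p 0) (p 2) (p 4) t1
  have a4' := le_cs (p 0) (p 2) (p 4) t1
  have b4 := cs_le (p 1) (p 5) (p 4) t4.rot.swap
  have b4' := le_cs (p 1) (p 5) (p 4) t4.rot.swap
  have a5 := cs_le (p 0) (p 3) (p 5) t2
  have a5' := le_cs (p 0) (p 3) (p 5) t2
  have b5 := cs_le (p 1) (p 4) (p 5) t4.rot.rot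
  have b5' := le_cs (p 1) (p 4) (p 5) t4.rot.rot
  have s1 : t * a + t * (1 - a) = t := by ring
  have s2 : (1 - t) * β + (1 - t) * (1 - β) = 1 - t := by ring
  have l0 := lo q3.le q4.le a0 b0 h.e0
  have l1 := lo q1.le q2.le a1 b1 h.e1
  have l2 := lo q2.le q4.le a2 b2 h.e2
  have l3 := lo q2.le q3.le a3 b3 h.e3
  have l4 := lo q1.le q4.le a4 b4 h.e4
  have l5 := lo q1.le q3.le a5 b5 h.e5
  have u0 := up q3.le q4.le a0' b0' h.e0
  have u1 := up q1.le q2.le a1' b1' h.e1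
  have u2 := up q2.le q4.le a2' b2' h.e2
  have u3 := up q2.le q3.le a3' b3' h.e3
  have u4 := up q1.le q4.le a4' b4' h.e4
  have u5 := up q1.le q3.le a5' b5' h.e5
  refine ⟨t1, t2, t3.rot.rot, t4.rot.rot, ?_, ?_, ?_, ?_, ?_, ?_, ?_, ?_, ?_, ?_, ?_, ?_⟩ <;> linarith

end Pool.Agent.Helper9.EIN2
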